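import Pool.Agent.Helper22_DEN2.Stmt

/-!
# LOC and CSP
-/

set_option autoImplicit false

namespace Pool.Agent.DEN.H252

open Pool.Agent.DEN

/-- LOC -/
theorem locThm : LocStmt := by
  intro K _ P hP
  obtain ⟨hinj, _, _, _, hr⟩ := H22.hF2 K
  have hne : ∀ s : Polynomial K, ¬ P ∣ s → polyL K s ≠ 0 := by
    intro s hs h0
    apply hs
    have : s = 0 := hinj (by rw [h0, map_zero])
    rw [this]
    exact dvd_zero P
  have h1 : ¬ P ∣ 1 := hP.not_dvd_one
  have mem1 : ∀ a : FF K, a ∈ loc K P → ∃ p s : Polynomial K, ¬ P ∣ s ∧ polyL K s * a = polyL K p := by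
    intro a ha
    induction ha using Subring.closure_induction with
    | mem x hx =>
      rcases hx with ⟨p, rfl⟩ | ⟨s, hs, rfl⟩
      · exact ⟨p, 1, h1, by rw [map_one, one_mul]⟩
      · exact ⟨1, s, hs, by rw [map_one]; exact mul_inv_cancel₀ (hne s hs)⟩
    | zero => exact ⟨0, 1, h1, by rw [map_zero, mul_zero]⟩
    | one => exact ⟨1, 1, h1, by rw [mul_one]⟩
    | add x y _ _ hx hy =>
      obtain ⟨p, s, hs, e⟩ := hx
      obtain ⟨p', s', hs', e'⟩ := hy
      refine ⟨s' * p + s * p', s * s', fun h => (hP.dvd_or_dvd h).elim hs hs', ?_⟩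
      rw [map_mul, map_add, map_mul, map_mul, ← e, ← e']
      ring
    | neg x _ hx =>
      obtain ⟨p, s, hs, e⟩ := hx
      exact ⟨-p, s, hs, by rw [map_neg, ← e]; ring⟩
    | mul x y _ _ hx hy =>
      obtain ⟨p, s, hs, e⟩ := hx
      obtain ⟨p', s', hs', e'⟩ := hy
      refine ⟨p * p', s * s', fun h => (hP.dvd_or_dvd h).elim hs hs', ?_⟩
      rw [map_mul, map_mul, ← e, ← e']
      ring
  have mem2 : ∀ p : Polynomial K, polyL K p ∈ loc K P := fun p =>
    Subring.subset_closure (Or.inl ⟨p, rfl⟩)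
  have mem3 : ∀ s : Polynomial K, ¬ P ∣ s → (polyL K s)⁻¹ ∈ loc K P := fun s hs =>
    Subring.subset_closure (Or.inr ⟨s, hs, rfl⟩)
  have mem4 : ∀ a : FF K, (∃ p s : Polynomial K, ¬ P ∣ s ∧ polyL K s * a = polyL K p) →
      a ∈ loc K P := by
    rintro a ⟨p, s, hs, e⟩
    have : a = (polyL K s)⁻¹ * polyL K p := by
      rw [← e, ← mul_assoc, inv_mul_cancel₀ (hne s hs), one_mul]
    rw [this]
    exact (loc K P).mul_mem (mem3 s hs) (mem2 p)
  have four : ∀ (p : Polynomial K) (k : ℕ), polyL K p ∈ lp K P k → P ^ k ∣ p := by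
    rintro p k ⟨b, hb, e⟩
    obtain ⟨p', s, hs, e'⟩ := mem1 b hb
    have h2 : s * p = P ^ k * p' := by
      apply hinj
      rw [map_mul, map_mul, map_pow, e, ← e']
      ring
    exact hP.pow_dvd_of_dvd_mul_left k hs (by rw [h2]; exact dvd_mul_right _ _)
  have ra : ∀ a ∈ ringA K 1, ∃ p, polyL K p = a := by
    intro a ha
    have : a ∈ (ringA K 1 : Set (FF K)) := ha
    rw [hr] at this
    exact this
  refine ⟨fun a => ⟨mem1 a, mem4 a⟩, ?_, ?_, four, ?_⟩
  · intro a ha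
    obtain ⟨p, rfl⟩ := ra a ha
    exact mem2 p
  · intro b hb
    obtain ⟨p, s, hs, e⟩ := mem1 b hb
    by_cases hp : P ∣ p
    · right
      obtain ⟨p', rfl⟩ := hp
      refine ⟨(polyL K s)⁻¹ * polyL K p', (loc K P).mul_mem (mem3 s hs) (mem2 p'), ?_⟩
      have h5 := hne s hs
      rw [map_mul] at e
      field_simp
      rw [← e]
      ring
    · left
      have h5 := hne s hs
      have h6 := hne p hp
      have hb0 : b ≠ 0 := by
        rintro rfl
        rw [mul_zero] at e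
        exact h6 e.symm
      refine ⟨hb0, mem4 _ ⟨s, p, hp, ?_⟩⟩
      rw [← e]
      field_simp
  · intro a k ha hak
    obtain ⟨p, rfl⟩ := ra a ha
    obtain ⟨q, rfl⟩ := four p k hak
    refine ⟨polyL K q, ?_, by rw [map_mul, map_pow]⟩
    have : polyL K q ∈ (ringA K 1 : Set (FF K)) := by rw [hr]; exact ⟨q, rfl⟩
    exact this

/-- CSP -/
theorem csp : CspStmt := by
  intro r C hC K _ M N hM hN ψ hmul hone hrad f hf
  have nM := (H22.hNrm r C hC K 1 M one_ne_zero hM isCoprime_one_left).1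
  have nN := (H22.hNrm r C hC K 1 N one_ne_zero hN isCoprime_one_left).1
  refine ⟨fun γ hγ x => ?_, ?_⟩
  · obtain ⟨h1, h2⟩ := hone γ hγ
    rw [hf γ h1, h2, one_mul]
  · intro i γ hγ x V _ hV hfin
    obtain ⟨u, hu1, hu2, hu3⟩ := hrad γ hγ i
    obtain ⟨v, hv, n, hn, e⟩ := hV u hu1
    have hn2 := (Subgroup.mem_inf.1 hn).2
    have hvM : v ∈ cong C K 1 M := by
      have : v = u * n⁻¹ := by rw [e]; group
      rw [this]
      exact mul_mem hu2 (inv_mem (hone n hn2).1)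
    have hvM' := nM γ hγ v hvM
    have hnN' := nN γ hγ n hn2
    have hc : ψ (γ * v * γ⁻¹) ≠ 1 := by
      intro h
      apply hu3
      have e2 : γ * u * γ⁻¹ = (γ * v * γ⁻¹) * (γ * n * γ⁻¹) := by rw [e]; group
      rw [e2, hmul _ hvM' _ (hone _ hnN').1, h, (hone _ hnN').2, one_mul]
    set S := ∑ᶠ y ∈ {y | ∃ v ∈ V, y = v • x}, f (γ • y) with hS
    have hbij : Set.BijOn (fun y : XX C K => v • y) {y | ∃ v ∈ V, y = v • x}
        {y | ∃ v ∈ V, y = v • x} := by
      refine ⟨?_, ?_, ?_⟩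
      · rintro y ⟨w, hw, rfl⟩
        exact ⟨v * w, mul_mem hv hw, by rw [mul_smul]⟩
      · intro y _ y' _ h
        exact smul_left_cancel v h
      · rintro y ⟨w, hw, rfl⟩
        refine ⟨(v⁻¹ * w) • x, ⟨v⁻¹ * w, mul_mem (inv_mem hv) hw, rfl⟩, ?_⟩
        show v • ((v⁻¹ * w) • x) = w • x
        rw [smul_smul]
        congr 1
        group
    have h1 : ∑ᶠ y ∈ {y | ∃ v ∈ V, y = v • x}, ψ (γ * v * γ⁻¹) * f (γ • y) = S := by
      refine finsum_mem_eq_of_bijOn _ hbij fun y _ => ?_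
      rw [← hf _ hvM', smul_smul, smul_smul]
      congr 2
      group
    have h2 : ψ (γ * v * γ⁻¹) * S = S := by
      refine Eq.trans ?_ h1
      rw [hS]
      exact mul_finsum_mem _ _
    have h3 : (ψ (γ * v * γ⁻¹) - 1) * S = 0 := by rw [sub_mul, h2, one_mul, sub_self]
    exact (mul_eq_zero.1 h3).resolve_left (sub_ne_zero.2 hc)

end Pool.Agent.DEN.H252
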